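import Pool.Agent.K7.H91.GB.Final

/-!
# MP_b5e119_nt: the first `exp ((log N) ^ (1 / 4) / 10)` terms for almost all `N`

For almost all `N` the defect `N - n - a_n` is at most `exp (200 (log n) ^ 3)` for all
`n ≤ exp ((log N) ^ (1 / 4) / 10)`, and `g_N` is larger than `exp ((log N) ^ (1 / 4) / 10)`.
-/

set_option autoImplicit false

namespace Pool.Agent.Results.MP_b5e119_nt.AlmostAllDefect

open Pool.Agent.K7.H91.GB Finset Filter

/-- There is `m₀` such that for all `X` and all `m ≥ m₀` there is a set `E` of at most `2 X / m`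
numbers such that for every `N` in `[3, X]` outside `E` and every `n` with
`m ≤ n ≤ exp ((log X) ^ (1 / 4) / 10)` one has `g_N > n` and
`a_n ≥ N - n - exp (200 (log n) ^ 3)`. -/
theorem result :
    ∃ m₀ : ℕ, ∀ X m : ℕ, m₀ ≤ m → ∃ E : Finset ℕ, (E.card : ℝ) ≤ 2 * X / m ∧
      ∀ N : ℕ, 3 ≤ N → N ≤ X → N ∉ E → ∀ a : ℕ → ℤ, a 1 = (N : ℤ) - 2 →
        (∀ n : ℕ, 2 ≤ n → a n = a (n - 1) -
          ((Int.gcd (a (n - 1)) ((N : ℤ) - (-1) ^ n * ((N : ℤ) - n)) : ℕ) : ℤ)) →
        ∀ g : ℕ, IsLeast {n : ℕ | 2 ≤ n ∧ a n = 0} g →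
          ∀ n : ℕ, m ≤ n → (n : ℝ) ≤ Real.exp ((Real.log X) ^ (1 / 4 : ℝ) / 10) →
            n < g ∧ (N : ℝ) - n - Real.exp (200 * (Real.log n) ^ 3) ≤ (a n : ℝ) := by
  obtain ⟨L1, hL1⟩ := eventually_atTop.1 ev_delta
  refine ⟨max (2 ^ (max L1 6)) (⌈Real.exp 30⌉₊), fun X m hm => ?_⟩
  have hm1 : 2 ^ (max L1 6) ≤ m := (le_max_left _ _).trans hm
  have hm2 : Real.exp 30 ≤ m := Nat.ceil_le.1 ((le_max_right _ _).trans hm)
  have hm0 : 0 < m := lt_of_lt_of_le (by positivity) hm1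
  have hmL : m ≤ 2 ^ Nat.clog 2 m := Nat.le_pow_clog (by norm_num) m
  have hL0 : max L1 6 ≤ Nat.clog 2 m :=
    (Nat.pow_le_pow_iff_right (by norm_num)).1 (hm1.trans hmL)
  have hL0a : L1 ≤ Nat.clog 2 m := (le_max_left _ _).trans hL0
  have hL0b : 6 ≤ Nat.clog 2 m := (le_max_right _ _).trans hL0
  refine ⟨Exc' (Nat.clog 2 m) X, ?_, ?_⟩
  · refine (card_Exc' (fun L hL => hL1 L (hL0a.trans hL)) hL0b).trans ?_
    refine div_le_div_of_nonneg_left (by positivity) (by exact_mod_cast hm0) ?_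
    exact_mod_cast hmL
  · intro N hN3 hNX hNE a ha1 ha g hg n hmn hnT
    have hnm : Real.exp 30 ≤ n := hm2.trans (by exact_mod_cast hmn)
    have hn0 : (0 : ℝ) < n := (Real.exp_pos _).trans_le hnm
    have ht : 30 ≤ Real.log n := (Real.le_log_iff_exp_le hn0).2 hnm
    have hX1 : 1 ≤ X := by omega
    have hlX : 0 ≤ Real.log X := Real.log_natCast_nonneg X
    have hX : 10 ^ 4 * (Real.log n) ^ 4 ≤ Real.log X := by
      have h1 : Real.log n ≤ (Real.log X) ^ (1 / 4 : ℝ) / 10 :=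
        (Real.log_le_iff_le_exp hn0).2 hnT
      have h2 : 10 * Real.log n ≤ (Real.log X) ^ (1 / 4 : ℝ) := by linarith
      have h3 : (10 * Real.log n) ^ 4 ≤ ((Real.log X) ^ (1 / 4 : ℝ)) ^ 4 :=
        pow_le_pow_left₀ (by linarith) h2 4
      have h4 : ((Real.log X) ^ (1 / 4 : ℝ)) ^ 4 = Real.log X := by
        rw [← Real.rpow_natCast, ← Real.rpow_mul hlX]
        norm_num
      rw [h4, mul_pow] at h3
      exact h3
    have hnn : 0 < n := by exact_mod_cast hn0
    have hnL : n ≤ 2 ^ Nat.clog 2 n := Nat.le_pow_clog (by norm_num) n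
    have hmn' : Nat.clog 2 m ≤ Nat.clog 2 n := Nat.clog_mono_right 2 hmn
    have hL : ((Nat.clog 2 n : ℕ) : ℝ) * Real.log 2 ≤ Real.log n + Real.log 2 := by
      have h1 : 2 ^ (Nat.clog 2 n).pred < n := by
        refine Nat.pow_pred_clog_lt_self (by norm_num) ?_
        by_contra hc
        have : n = 1 := by omega
        rw [this] at ht
        norm_num at ht
      have h2 : ((2 : ℝ)) ^ (Nat.clog 2 n).pred ≤ n := by exact_mod_cast h1.le
      have h3 := Real.log_le_log (by positivity) h2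
      rw [Real.log_pow] at h3
      have h4 : (((Nat.clog 2 n).pred : ℕ) : ℝ) = (Nat.clog 2 n : ℝ) - 1 := by
        rw [Nat.pred_eq_sub_one, Nat.cast_sub (by omega)]
        norm_num
      rw [h4] at h3
      linarith
    have hk := key ht hL hX
    have hk2 := key2 ht hL
    have hNL : N ∉ Exc (Nat.clog 2 n) X := by
      intro h
      apply hNE
      unfold Exc'
      rw [mem_biUnion]
      refine ⟨Nat.clog 2 n, ?_, h⟩
      rw [mem_filter, mem_Icc]
      refine ⟨⟨hmn', ?_⟩, hk⟩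
      have h1 : Nat.clog 2 n < 2 ^ Nat.clog 2 n := Nat.lt_two_pow_self
      have h2 : 2 ^ Nat.clog 2 n ≤ 2 ^ (2 * RR (Nat.clog 2 n)) :=
        Nat.pow_le_pow_right (by norm_num) (by
          have := L_lt_RR (Nat.clog 2 n)
          omega)
      omega
    have hp := pos_of_good (hL0b.trans hmn') hNX (by omega) hNL a ha1 ha
    constructor
    · by_contra hc
      rw [not_lt] at hc
      have h1 := (hp g (by have := hg.1.1; omega) (hc.trans hnL)).1
      rw [hg.1.2] at h1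
      exact lt_irrefl _ h1
    · have h1 := (hp n hnn hnL).2
      have h2 : (N : ℝ) - n - 2 ^ (qq (Nat.clog 2 n) * KK (Nat.clog 2 n)) ≤ (a n : ℝ) := by
        exact_mod_cast h1
      linarith

end Pool.Agent.Results.MP_b5e119_nt.AlmostAllDefect
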