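import Pool.Agent.K7.H67.GBF.App
import Pool.Agent.K7.H67.BG.Fam

/-!
# The gcd recursion for Goldbach pairs: the first terms for almost all members `N` of sparse families

`AlmostAllDefect` (helper91) shows that for almost all `N ≤ X` one has `g_N > exp ((log X) ^ (1 / 4) / 10)`, and that the defect `N - n - a_n` is at
most `exp (200 (log n) ^ 3)` for the `n` up to this number. Here the same is proved for almost all members of an arbitrary family of numbers `N` (of any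
size, and with very few members) which are not concentrated in residue classes: modulo each `q ≤ X` each class contains at most `M / q` members, up to
a factor `exp ((log q) ^ (1 / 4) / 10)`. Only an upper bound is needed, so that sets which are known only through sieves are allowed.

Examples, with `X` a power of the parameter:

* the `N` with `α N + β` prime, in arbitrary windows `(y, y + h]`;
* `N = ⌊G (n)⌋` for smooth functions `G`, `N = ⌊a n ^ r + b⌋` for every real `r > 0` which is not an integer;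
* the least residues of `b u ^ i + a` modulo a prime `p`, `1 ≤ i ≤ x`, where `p ^ ε ≤ x` and `x` is at most the order of `u`;
* the least residues modulo `p` of `u_1 ⋯ u_k + f_1 + … + f_k`, where `u_i` runs over an arbitrary set of at least `p ^ ε` residues, `f_i` is an
  arbitrary function of the variables other than `u_i`, and `k ≥ k₀ (ε)`.

Proof. Outside of few residue classes modulo numbers `q ≤ X` the recursion has no run of large gcds (helper91); the union bound over these classes works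
for the family, as for a class whose modulus is too large one can take a divisor of the modulus of size about `X`.
-/

set_option autoImplicit false

open Finset

namespace Pool.Agent.Results.MP_b5e119_nt.SparseFamilies

/-- `a` is the sequence of the problem for the number `N` -/
def IsRec (N : ℕ) (a : ℕ → ℤ) : Prop :=
  a 1 = (N : ℤ) - 2 ∧ ∀ n : ℕ, 2 ≤ n →
    a n = a (n - 1) - ((Int.gcd (a (n - 1)) ((N : ℤ) - (-1) ^ n * ((N : ℤ) - (n : ℤ))) : ℕ) : ℤ)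

/-- For all `n` with `m ≤ n ≤ Z`: `g_N > n` and `a_n ≥ N - n - exp (200 (log n) ^ 3)`. -/
def Regular (N m : ℕ) (Z : ℝ) : Prop :=
  ∀ (a : ℕ → ℤ) (g : ℕ), IsRec N a → IsLeast {n : ℕ | 2 ≤ n ∧ a n = 0} g → ∀ n : ℕ, m ≤ n → (n : ℝ) ≤ Z →
    n < g ∧ (N : ℝ) - n - Real.exp (200 * Real.log n ^ 3) ≤ a n

open Classical in
/-- the number of the `i ∈ T` for which `t i` is not regular -/
noncomputable def exceptions {ι : Type} (T : Finset ι) (t : ι → ℕ) (m : ℕ) (Z : ℝ) : ℕ := (T.filter fun i => ¬ Regular (t i) m Z).card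

/-- Modulo each `q ≤ X` each residue class contains at most `M / q * exp ((log q) ^ (1 / 4) / 10)` of the numbers `t i`, `i ∈ T`. -/
def Spread {ι : Type} (T : Finset ι) (t : ι → ℕ) (X : ℕ) (M : ℝ) : Prop :=
  ∀ q : ℕ, 1 ≤ q → q ≤ X → ∀ r : ℕ,
    ((T.filter fun i => t i ≡ r [MOD q]).card : ℝ) ≤ M / q * Real.exp (Real.log q ^ (1 / 4 : ℝ) / 10)

/-- `G 0` has on the positive numbers the derivatives `G 1`, …, `G (k + 2)`; on `[N, 3 N]` the function `G 0` is nonnegative, `G (k + 1)` is between `lam`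
and `B lam`, where `N ^ (-1 + τ) ≤ lam ≤ N ^ (-τ)`, and `G (k + 2)` is nonpositive. -/
def Smooth (k : ℕ) (B τ : ℝ) (N : ℕ) (G : ℕ → ℝ → ℝ) : Prop :=
  (∀ r < k + 2, ∀ x : ℝ, 0 < x → HasDerivAt (G r) (G (r + 1) x) x) ∧
  ∃ lam : ℝ, (N : ℝ) ^ (-1 + τ) ≤ lam ∧ lam ≤ (N : ℝ) ^ (-τ) ∧
    ∀ x : ℝ, N ≤ x → x ≤ 3 * N → 0 ≤ G 0 x ∧ lam ≤ G (k + 1) x ∧ G (k + 1) x ≤ B * lam ∧ G (k + 2) x ≤ 0

/-- the least residue of `b u ^ i + a` modulo `p` -/
def power {p : ℕ} (b a : ZMod p) (u : (ZMod p)ˣ) (i : ℕ) : ℕ := (b * ((u ^ i : (ZMod p)ˣ) : ZMod p) + a).val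

/-- the least residue of `u_1 ⋯ u_k + f_1 (u) + … + f_k (u)` modulo `p` -/
def multilinear {p k : ℕ} (f : Fin k → (Fin k → ZMod p) → ZMod p) (u : Fin k → ZMod p) : ℕ := (∏ i, u i + ∑ i, f i u).val

lemma regular_iff (N m : ℕ) (Z : ℝ) : Regular N m Z ↔ Pool.Agent.K7.H67.GBF.Good N m Z := by
  constructor
  · intro h a ha1 ha g hg n hmn hn
    exact h a g ⟨ha1, ha⟩ hg n hmn hn
  · intro h a g ha hg n hmn hn
    exact h a ha.1 ha.2 g hg n hmn hn

lemma exceptions_eq {ι : Type} (T : Finset ι) (t : ι → ℕ) (m : ℕ) (Z : ℝ) :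
    exceptions T t m Z = Pool.Agent.K7.H67.GBF.exc T t m Z := by
  classical
  unfold exceptions Pool.Agent.K7.H67.GBF.exc
  congr 1
  apply filter_congr
  intro i _
  rw [regular_iff]

lemma range_eq {η : ℝ} (hη : 0 < η) (N : ℕ) :
    (η / 2 * Real.log N) ^ (1 / 4 : ℝ) / 10 = (η / 2) ^ (1 / 4 : ℝ) / 10 * Real.log N ^ (1 / 4 : ℝ) := by
  rw [Real.mul_rpow (by positivity) (Real.log_natCast_nonneg N)]
  ring

/-- **Theorem.** There is `m₀` such that:

(1) for all `X`, all `m ≥ m₀` and every family `t i`, `i ∈ T`, with `Spread T t X M`: for all but at most `2 M / m` of the members `N`, all `n` with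
`m ≤ n ≤ exp ((log X) ^ (1 / 4) / 10)` satisfy `g_N > n` and `a_n ≥ N - n - exp (200 (log n) ^ 3)`;

(2) this holds up to `exp ((log h) ^ (1 / 4) / 12)` for all but `C α / φ (α) * h / (m log h)` of the `N ∈ (y, y + h]` with `α N + β` prime, for all
`α ≥ 1`, `β`, `y`, `h ≥ 2`, `m ≥ m₀`;

(3) it holds up to `exp (c (log N) ^ (1 / 4))` for all but `4 L / m` of the members `⌊G 0 (n)⌋`, `N ≤ n < N + L`, for smooth functions; (4) for all but
`4 L / m` of the `⌊a n ^ r + b⌋`, `N ≤ n < N + L`; (5) for all but `4 x / m` of the least residues of `b u ^ i + a` modulo the prime `p`, `i ≤ x`;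
(6) for all but a proportion `4 / m` of the members of the multilinear families. -/
theorem result : ∃ m₀ : ℕ,
    (∀ X m : ℕ, m₀ ≤ m → ∀ (ι : Type) (T : Finset ι) (t : ι → ℕ) (M : ℝ), 0 ≤ M → Spread T t X M →
      (exceptions T t m (Real.exp (Real.log X ^ (1 / 4 : ℝ) / 10)) : ℝ) ≤ 2 * M / m) ∧
    (∃ C : ℝ, 0 < C ∧ ∀ (α : ℕ) (β : ℤ) (y h m : ℕ), 1 ≤ α → 2 ≤ h → m₀ ≤ m →
      (exceptions ((Ioc y (y + h)).filter fun N : ℕ => ((α : ℤ) * N + β).toNat.Prime) id m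
        (Real.exp (Real.log h ^ (1 / 4 : ℝ) / 12)) : ℝ) ≤ C * ((α : ℝ) / Nat.totient α) * h / (m * Real.log h)) ∧
    (∀ (k : ℕ) (B τ : ℝ), 1 ≤ B → 0 < τ → ∃ c : ℝ, 0 < c ∧ ∃ N₀ : ℕ, ∀ N : ℕ, N₀ ≤ N → ∀ m : ℕ, m₀ ≤ m →
      ∀ G : ℕ → ℝ → ℝ, Smooth k B τ N G → ∀ L : ℕ, (N : ℝ) ^ (1 - c) ≤ L → L ≤ N →
        (exceptions (Ico N (N + L)) (fun n => ⌊G 0 (n : ℝ)⌋₊) m (Real.exp (c * Real.log N ^ (1 / 4 : ℝ))) : ℝ) ≤ 4 * L / m) ∧
    (∀ r : ℝ, 0 < r → (∀ n : ℕ, r ≠ n) → ∃ c : ℝ, 0 < c ∧ ∃ N₀ : ℕ, ∀ N : ℕ, N₀ ≤ N → ∀ m : ℕ, m₀ ≤ m →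
      ∀ a b : ℝ, (N : ℝ) ^ (-c) ≤ a → a ≤ (N : ℝ) ^ c → 0 ≤ b → ∀ L : ℕ, (N : ℝ) ^ (1 - c) ≤ L → L ≤ N →
        (exceptions (Ico N (N + L)) (fun n => ⌊a * (n : ℝ) ^ r + b⌋₊) m (Real.exp (c * Real.log N ^ (1 / 4 : ℝ))) : ℝ) ≤ 4 * L / m) ∧
    (∀ ε : ℝ, 0 < ε → ∃ c : ℝ, 0 < c ∧ ∃ p₀ : ℕ, ∀ p : ℕ, p₀ ≤ p → p.Prime → ∀ m : ℕ, m₀ ≤ m →
      ∀ (b a : ZMod p) (u : (ZMod p)ˣ) (x : ℕ), b ≠ 0 → (p : ℝ) ^ ε ≤ x → x ≤ orderOf u →
        (exceptions (Icc 1 x) (power b a u) m (Real.exp (c * Real.log p ^ (1 / 4 : ℝ))) : ℝ) ≤ 4 * x / m) ∧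
    (∀ ε : ℝ, 0 < ε → ∃ k₀ : ℕ, ∀ k : ℕ, k₀ ≤ k → ∃ c : ℝ, 0 < c ∧ ∃ p₀ : ℕ, ∀ p : ℕ, p₀ ≤ p → p.Prime → ∀ m : ℕ, m₀ ≤ m →
      ∀ (S : Fin k → Finset (ZMod p)) (f : Fin k → (Fin k → ZMod p) → ZMod p),
        (∀ i, (p : ℝ) ^ ε ≤ (S i).card) → (∀ (i : Fin k) (u v : Fin k → ZMod p), (∀ j, j ≠ i → u j = v j) → f i u = f i v) →
        (exceptions (Fintype.piFinset S) (multilinear f) m (Real.exp (c * Real.log p ^ (1 / 4 : ℝ))) : ℝ) ≤
          4 * (Fintype.piFinset S).card / m) := by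
  classical
  obtain ⟨m₀, hm₀, h1, h2, h3⟩ := Pool.Agent.K7.H67.GBF.apps
  refine ⟨m₀, ?_, ⟨132000000, by norm_num, ?_⟩, ?_, ?_, ?_, ?_⟩
  · intro X m hm ι T t M hM hT
    rw [exceptions_eq]
    exact h1 X m hm ι T t M hM hT
  · intro α β y h m hα hh hm
    rw [exceptions_eq]
    exact h2 α β y h m hα hh hm
  · intro k B τ hB hτ
    obtain ⟨η, hη, N₁, h4⟩ := Pool.Agent.K7.H67.VDC.smooth_equi k B τ hB hτ
    obtain ⟨N₂, h5⟩ := h3 η hη
    obtain ⟨c, hc⟩ : ∃ c : ℝ, c = min η ((η / 2) ^ (1 / 4 : ℝ) / 10) := ⟨_, rfl⟩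
    have hc0 : 0 < c := by rw [hc]; positivity
    refine ⟨c, hc0, N₁ + N₂ + 1, fun N hN m hm G hG L hL1 hL2 => ?_⟩
    have hN1 : (1 : ℝ) ≤ N := by exact_mod_cast (by omega : 1 ≤ N)
    have hcη : c ≤ η := by rw [hc]; exact min_le_left _ _
    have h6 := h5 N (by omega) m hm ℕ _ _ (h4 N (by omega) G hG L
      ((Real.rpow_le_rpow_of_exponent_le hN1 (by linarith)).trans hL1) hL2)
    rw [exceptions_eq]
    rw [Nat.card_Ico, Nat.add_sub_cancel_left] at h6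
    refine le_trans ?_ h6
    rw [Nat.cast_le]
    apply Pool.Agent.K7.H67.GBF.exc_mono
    intro n _ hn
    refine hn.trans (Real.exp_le_exp.2 ?_)
    rw [range_eq hη]
    apply mul_le_mul_of_nonneg_right _ (Real.rpow_nonneg (Real.log_natCast_nonneg N) _)
    rw [hc]
    exact min_le_right _ _
  · intro r hr hri
    obtain ⟨η, hη, N₁, h4⟩ := Pool.Agent.K7.H67.VDC.ps_equi r hr hri
    obtain ⟨N₂, h5⟩ := h3 η hη
    obtain ⟨c, hc⟩ : ∃ c : ℝ, c = min η ((η / 2) ^ (1 / 4 : ℝ) / 10) := ⟨_, rfl⟩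
    have hc0 : 0 < c := by rw [hc]; positivity
    refine ⟨c, hc0, N₁ + N₂ + 1, fun N hN m hm a b ha1 ha2 hb L hL1 hL2 => ?_⟩
    have hN1 : (1 : ℝ) ≤ N := by exact_mod_cast (by omega : 1 ≤ N)
    have hcη : c ≤ η := by rw [hc]; exact min_le_left _ _
    have h6 := h5 N (by omega) m hm ℕ _ _ (h4 N (by omega) a b ((Real.rpow_le_rpow_of_exponent_le hN1 (by linarith)).trans ha1)
      (ha2.trans (Real.rpow_le_rpow_of_exponent_le hN1 (by linarith))) hb L
      ((Real.rpow_le_rpow_of_exponent_le hN1 (by linarith)).trans hL1) hL2)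
    rw [exceptions_eq]
    rw [Nat.card_Ico, Nat.add_sub_cancel_left] at h6
    refine le_trans ?_ h6
    rw [Nat.cast_le]
    apply Pool.Agent.K7.H67.GBF.exc_mono
    intro n _ hn
    refine hn.trans (Real.exp_le_exp.2 ?_)
    rw [range_eq hη]
    apply mul_le_mul_of_nonneg_right _ (Real.rpow_nonneg (Real.log_natCast_nonneg N) _)
    rw [hc]
    exact min_le_right _ _
  · intro ε hε
    obtain ⟨γ, hγ, p₁, hsup⟩ := Pool.Agent.K7.H67.BG.pw_sup ε hε
    obtain ⟨p₂, heq⟩ := Pool.Agent.K7.H67.CUB.equi_of (min γ 1) (by positivity) (min_le_right _ _)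
    have hη : 0 < min γ 1 / 2 := by positivity
    obtain ⟨N₂, h5⟩ := h3 (min γ 1 / 2) hη
    refine ⟨(min γ 1 / 2 / 2) ^ (1 / 4 : ℝ) / 10, by positivity, p₁ + p₂ + N₂, fun p hp hpp m hm b a u x hb hx hxu => ?_⟩
    have : NeZero p := ⟨hpp.ne_zero⟩
    have h6 := h5 p (by omega) m hm ℕ (Icc 1 x) (power b a u) (fun X hX => by
      refine heq p (by omega) hpp ℕ (Icc 1 x) (power b a u) (fun i _ => ZMod.val_lt _) ?_ X hX
      intro j hj1 hjp
      refine (hsup p (by omega) hpp b a u x hb hx hxu j hj1 hjp).trans ?_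
      apply mul_le_mul_of_nonneg_left _ (Nat.cast_nonneg _)
      apply Real.rpow_le_rpow_of_exponent_le (by exact_mod_cast hpp.one_lt.le)
      exact neg_le_neg (min_le_left _ _))
    rw [range_eq hη, Nat.card_Icc, Nat.add_sub_cancel] at h6
    rw [exceptions_eq]
    exact h6
  · intro ε hε
    obtain ⟨k₀, hk₀⟩ := Pool.Agent.K7.H67.BG.vec_sup ε hε
    refine ⟨k₀, fun k hk => ?_⟩
    obtain ⟨γ, hγ, p₁, hsup⟩ := hk₀ k hk
    obtain ⟨p₂, heq⟩ := Pool.Agent.K7.H67.CUB.equi_of (min γ 1) (by positivity) (min_le_right _ _)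
    have hη : 0 < min γ 1 / 2 := by positivity
    obtain ⟨N₂, h5⟩ := h3 (min γ 1 / 2) hη
    refine ⟨(min γ 1 / 2 / 2) ^ (1 / 4 : ℝ) / 10, by positivity, p₁ + p₂ + N₂, fun p hp hpp m hm S f hS hf => ?_⟩
    have : NeZero p := ⟨hpp.ne_zero⟩
    have h6 := h5 p (by omega) m hm (Fin k → ZMod p) (Fintype.piFinset S) (multilinear f) (fun X hX => by
      refine heq p (by omega) hpp (Fin k → ZMod p) (Fintype.piFinset S) (multilinear f) (fun i _ => ZMod.val_lt _) ?_ X hX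
      intro j hj1 hjp
      refine (hsup p (by omega) hpp S hS f hf j hj1 hjp).trans ?_
      apply mul_le_mul_of_nonneg_left _ (Nat.cast_nonneg _)
      apply Real.rpow_le_rpow_of_exponent_le (by exact_mod_cast hpp.one_lt.le)
      exact neg_le_neg (min_le_left _ _))
    rw [range_eq hη] at h6
    rw [exceptions_eq]
    exact h6

end Pool.Agent.Results.MP_b5e119_nt.SparseFamilies
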