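import Mathlib
import Pool.Agent.K7.H40.GR.Main

/-!
# The gcd recursion for Goldbach pairs: how often `N - g_N` is small

`a N` is the recursion `a_1, a_2, …` of the problem for the parameter `N` and `g N = g_N` its least
zero `n ≥ 2`. We show that for `2 ≤ H ≤ c (log X)^2` at most `C X (log H / log X)^2` of the
`N ≤ X` satisfy `2 ≤ N - g_N ≤ H`.

If `N - g_N ≤ H`, then the excess `N - 1 - n - a_n` is constant, equal to `e` say, from the step
`4 H + 1` on, and `N - e`, `N + e` are primes. The first `4 H + 1` steps of the recursion are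
read as a decision tree: the residue of `N` modulo the product of the prime powers up to
`6 H + 1` of the primes up to `z = c_0 log X` is given at the root, and every larger prime is
tested when a multiple of it occurs. As `6 H + 1 < z^2`, every step tests at most one prime.
Only few `N` have more than `log X / log log X` successful tests. At a leaf of the tree the class
of `N` modulo the small primes and the found primes is known, some classes modulo the other
primes up to `6 H + 1` are excluded, and a sieve bounds the number of `N` of the leaf for which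
`N - e` and `N + e` are primes by the density of the leaf times `(log H / log X)^2`; the densities
of the leaves add up to one.
-/

set_option autoImplicit false

namespace Pool.Agent.Results.MP_b5e119_nt.SquaredLogDefects

open Finset Filter Topology

/-- the recursion of the problem: `a_1 = N - 2`, and
`a_n = a_{n-1} - gcd(a_{n-1}, N - (-1)^n (N - n))` for `n ≥ 2` (and `a_0 = 0`, not used) -/
noncomputable def a (N : ℕ) : ℕ → ℤ
  | 0 => 0
  | 1 => (N : ℤ) - 2
  | (n + 2) => a N (n + 1) - ((Int.gcd (a N (n + 1))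
      ((N : ℤ) - (-1) ^ (n + 2) * ((N : ℤ) - ((n + 2 : ℕ) : ℤ))) : ℕ) : ℤ)

/-- `g_N`: the least `n ≥ 2` with `a_n = 0` -/
noncomputable def g (N : ℕ) : ℕ := sInf {n : ℕ | 2 ≤ n ∧ a N n = 0}

lemma a_eq (N n : ℕ) : a N n = Pool.Agent.R105.GD.Gol.aa N n := by
  induction n using Nat.strong_induction_on with
  | _ n ih =>
    match n with
    | 0 => rw [a, Pool.Agent.R105.GD.Gol.aa]
    | 1 => rw [a, Pool.Agent.R105.GD.Gol.aa]
    | n + 2 => rw [a, Pool.Agent.R105.GD.Gol.aa, ih (n + 1) (by omega)]

lemma g_eq (N : ℕ) : g N = Pool.Agent.R105.GD.Gol.gg N := by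
  unfold g Pool.Agent.R105.GD.Gol.gg
  simp only [a_eq]

open Classical in
theorem count_le : ∃ c C : ℝ, 0 < c ∧ c ≤ 1 ∧ 0 < C ∧ ∀ X H : ℕ, 3 ≤ X → 2 ≤ H →
    (H : ℝ) ≤ c * Real.log X ^ 2 →
    (((Icc 3 X).filter (fun N : ℕ => g N + 2 ≤ N ∧ N ≤ g N + H)).card : ℝ) ≤
      C * X * (Real.log H / Real.log X) ^ 2 := by
  obtain ⟨c, hc, K, hK, h⟩ := Pool.Agent.K7.H40.GR.bigX
  obtain ⟨X0, hX0⟩ := eventually_atTop.1 h
  set M : ℝ := (Real.log (X0 + 3) / Real.log 2) ^ 2 with hM
  have hl2 : 0 < Real.log 2 := Real.log_pos (by norm_num)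
  have hM0 : 0 ≤ M := sq_nonneg _
  refine ⟨min c 1, K + M, lt_min hc one_pos, min_le_right _ _, by linarith, fun X H hX hH hHX => ?_⟩
  have hXr : (3 : ℝ) ≤ X := by exact_mod_cast hX
  have hHr : (2 : ℝ) ≤ H := by exact_mod_cast hH
  have hlX : 0 < Real.log X := Real.log_pos (by linarith)
  have hlH : Real.log 2 ≤ Real.log H := Real.log_le_log (by norm_num) hHr
  have hlH0 : 0 ≤ (Real.log H / Real.log X) ^ 2 := sq_nonneg _
  by_cases hXX : X < X0
  · have h1 : (((Icc 3 X).filter (fun N : ℕ => g N + 2 ≤ N ∧ N ≤ g N + H)).card : ℝ) ≤ X := by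
      have : ((Icc 3 X).filter (fun N : ℕ => g N + 2 ≤ N ∧ N ≤ g N + H)).card ≤ X := by
        refine (card_filter_le _ _).trans ?_
        rw [Nat.card_Icc]
        omega
      exact_mod_cast this
    have h2 : 1 ≤ M * (Real.log H / Real.log X) ^ 2 := by
      rw [hM, ← mul_pow]
      apply one_le_pow₀
      have hlX0 : Real.log X ≤ Real.log (X0 + 3) := by
        apply Real.log_le_log (by linarith)
        have : (X : ℝ) ≤ X0 := by exact_mod_cast hXX.le
        linarith
      rw [div_mul_div_comm, le_div_iff₀ (by positivity), one_mul, mul_comm]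
      exact mul_le_mul hlX0 hlH hl2.le (by linarith)
    calc (((Icc 3 X).filter (fun N : ℕ => g N + 2 ≤ N ∧ N ≤ g N + H)).card : ℝ) ≤ X := h1
      _ ≤ X * (M * (Real.log H / Real.log X) ^ 2) := le_mul_of_one_le_right (by linarith) h2
      _ ≤ (K + M) * X * (Real.log H / Real.log X) ^ 2 := by
          have h3 : 0 ≤ K * X * (Real.log H / Real.log X) ^ 2 := by positivity
          have h4 : (K + M) * X * (Real.log H / Real.log X) ^ 2 =
            K * X * (Real.log H / Real.log X) ^ 2 + X * (M * (Real.log H / Real.log X) ^ 2) := by ring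
          rw [h4]
          linarith
  · push Not at hXX
    have h1 := hX0 X hXX H hH (hHX.trans (mul_le_mul_of_nonneg_right (min_le_left _ _) (sq_nonneg _)))
    simp only [g_eq]
    refine h1.trans ?_
    apply mul_le_mul_of_nonneg_right _ hlH0
    apply mul_le_mul_of_nonneg_right _ (by linarith)
    linarith

open Classical in
/-- There are constants `c, C > 0` such that (1) for all `X ≥ 3` and `2 ≤ H ≤ c (log X)^2` at most
`C X (log H / log X)^2` of the `N ≤ X` satisfy `2 ≤ N - g_N ≤ H`, and (2) for all `X ≥ 16` all but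
at most `C X (log log X / log X)^2` of the composite numbers `N ≤ X` satisfy
`N - g_N ≥ c (log X)^2`. -/
theorem result :
    ∃ c C : ℝ, 0 < c ∧ 0 < C ∧
      (∀ X H : ℕ, 3 ≤ X → 2 ≤ H → (H : ℝ) ≤ c * Real.log X ^ 2 →
        (((Icc 3 X).filter (fun N : ℕ => g N + 2 ≤ N ∧ N ≤ g N + H)).card : ℝ) ≤
          C * X * (Real.log H / Real.log X) ^ 2) ∧
      (∀ X : ℕ, 16 ≤ X →
        (((Icc 3 X).filter (fun N : ℕ => ¬ N.Prime ∧
          (N : ℝ) - g N < c * Real.log X ^ 2)).card : ℝ) ≤
          C * X * (Real.log (Real.log X) / Real.log X) ^ 2) := by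
  obtain ⟨c, C, hc, hc1, hC, h⟩ := count_le
  refine ⟨c, 4 * C, hc, by linarith, fun X H hX hH hHX => ?_, fun X hX => ?_⟩
  · refine (h X H hX hH hHX).trans ?_
    apply mul_le_mul_of_nonneg_right _ (sq_nonneg _)
    apply mul_le_mul_of_nonneg_right _ (Nat.cast_nonneg _)
    linarith
  · have hXr : (16 : ℝ) ≤ X := by exact_mod_cast hX
    have hlX : 0 < Real.log X := Real.log_pos (by linarith)
    have hlX1 : 1 ≤ Real.log X := by
      rw [Real.le_log_iff_exp_le (by linarith)]
      have := Real.exp_one_lt_d9
      linarith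
    set B := (Icc 3 X).filter (fun N : ℕ => ¬ N.Prime ∧
          (N : ℝ) - g N < c * Real.log X ^ 2) with hB
    set H : ℕ := ⌊c * Real.log X ^ 2⌋₊ with hH
    have hmem : ∀ N ∈ B, g N + 2 ≤ N ∧ N ≤ g N + H := by
      intro N hN
      rw [hB, mem_filter, mem_Icc] at hN
      obtain ⟨⟨hN3, hNX⟩, hNp, hNd⟩ := hN
      have h7 := Pool.Agent.R105.GD.Gol.defect_comp N hN3 hNp
      rw [← g_eq] at h7
      have h8 := (Nat.minFac_prime (show N ≠ 1 by omega)).two_le
      have h9 : g N + 2 ≤ N := by omega
      refine ⟨h9, ?_⟩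
      have h10 : N - g N ≤ H := by
        apply Nat.le_floor
        rw [Nat.cast_sub (by omega)]
        exact hNd.le
      omega
    by_cases hH2 : 2 ≤ H
    · have hHle : (H : ℝ) ≤ c * Real.log X ^ 2 := Nat.floor_le (by positivity)
      have h1 : (B.card : ℝ) ≤
          (((Icc 3 X).filter (fun N : ℕ => g N + 2 ≤ N ∧ N ≤ g N + H)).card : ℝ) := by
        have : B.card ≤ ((Icc 3 X).filter (fun N : ℕ => g N + 2 ≤ N ∧ N ≤ g N + H)).card := by
          apply card_le_card
          intro N hN
          rw [mem_filter]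
          exact ⟨(mem_filter.1 hN).1, hmem N hN⟩
        exact_mod_cast this
      have h2 := h X H (by omega) hH2 hHle
      have hHr : (2 : ℝ) ≤ H := by exact_mod_cast hH2
      have h3 : Real.log H ≤ 2 * Real.log (Real.log X) := by
        have h4 : (H : ℝ) ≤ Real.log X ^ 2 := by
          refine hHle.trans ?_
          have := sq_nonneg (Real.log X)
          nlinarith
        have h5 := Real.log_le_log (by linarith) h4
        rw [Real.log_pow] at h5
        exact_mod_cast h5
      have h6 : 0 ≤ Real.log H := Real.log_nonneg (by linarith)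
      refine h1.trans (h2.trans ?_)
      have h7 : (Real.log H / Real.log X) ^ 2 ≤ (2 * Real.log (Real.log X) / Real.log X) ^ 2 := by
        apply pow_le_pow_left₀ (by positivity)
        exact div_le_div_of_nonneg_right h3 hlX.le
      calc C * X * (Real.log H / Real.log X) ^ 2
          ≤ C * X * (2 * Real.log (Real.log X) / Real.log X) ^ 2 :=
            mul_le_mul_of_nonneg_left h7 (by positivity)
        _ = 4 * C * X * (Real.log (Real.log X) / Real.log X) ^ 2 := by ring
    · have h1 : B = ∅ := by
        rw [eq_empty_iff_forall_notMem]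
        intro N hN
        have := hmem N hN
        omega
      rw [h1, card_empty, Nat.cast_zero]
      positivity

end Pool.Agent.Results.MP_b5e119_nt.SquaredLogDefects
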