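import Pool.Agent.K7.H69.GR.D

/-!
# MP_b5e119_nt: strings of primes all of whose pairs are returned by the recursion

The definitions are in `Pool/Agent/K7/H69/GR/B.lean` and `C.lean`:

* `IsRec N a`: `a` is the sequence of the problem for `N`;
* `nontrivial N a g`: the number of the `n` in `[2, g]` for which the gcd in the recursion is not `1`;
* `Returns p p'`: for `N = (p + p') / 2`, the integer `N` is composite, `g_N + 1 = p`,
  `2 N - g_N - 1 = p'`, and at least as many of the gcds up to `g_N` are nontrivial as there are
  primes in `(p, p']`;
* `GoodInterval b c m C M`: the interval `[M, M + C]` contains at least `m` primes, all its primes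
  are `≡ c (mod b)`, and `Returns p p'` holds for every two primes `p < p'` in it.
-/

set_option autoImplicit false

namespace Pool.Agent.Results.MP_b5e119_nt.StringsOfPrimes

open Pool.Agent.K7.H69.GR Finset

open Classical in
/-- For every `m` and all coprime `b, c` there is a length `C` such that for every `ε > 0` and all
large `X`, at least `X ^ (1 - ε)` of the `M ≤ X` are such that `[M, M + C]` contains at least `m`
primes, all its primes are `≡ c (mod b)`, and for every two primes `p < p'` in it the recursion for
`N = (p + p') / 2`, a composite number, returns exactly the pair `g_N + 1 = p`,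
`2 N - g_N - 1 = p'`. -/
theorem result (b c m : ℕ) (hb : 0 < b) (hc : c.Coprime b) :
    ∃ C : ℕ, ∀ ε : ℝ, 0 < ε → ∃ X₀ : ℝ, ∀ X : ℝ, X₀ ≤ X →
      X ^ (1 - ε) ≤ (((Icc 1 ⌊X⌋₊).filter (fun M => GoodInterval b c m C M)).card : ℝ) :=
  main b c m hb hc

end Pool.Agent.Results.MP_b5e119_nt.StringsOfPrimes
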